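import Pool.Agent.ISO.StmtsM

/-!
# Row MVL of squad ISO: `mv` and lines
-/

set_option autoImplicit false

namespace Pool.Agent.ISO.H13

open MvPolynomial Pool.Agent.Helper6_Mono
open Pool.Agent.ISO

variable {k : Type} [Field k] {σ : Type}

theorem mem_eqs (f f1 : MvPolynomial σ k) (p : σ → k) (hp : eval p f = 0) (V : GSch f1)
    (c : CharMu) (e : MvPolynomial (Option V.Idx) k) :
    e ∈ mvEqs (V.line c) ↔ e ∈ (mv f p hp V).lineEqs := by
  constructor
  · rintro (⟨e', he', h⟩ | ⟨i, h⟩)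
    · exact ⟨e', Or.inl he', h⟩
    · exact ⟨V.pt i, Or.inr ⟨i, rfl⟩, h⟩
  · rintro ⟨e', he' | ⟨i, hi⟩, h⟩
    · exact Or.inl ⟨e', he', h⟩
    · subst hi
      exact Or.inr ⟨i, h⟩

theorem mvl : MvlStmt := by
  intro k _ σ f f1 p hp V c
  refine ⟨⟨fun S _ _ x => ⟨x.crd, fun e he => x.eq e ((mem_eqs f f1 p hp V c e).2 he)⟩, ?_⟩,
    ?_, ?_, ?_⟩
  · intro S _ _
    constructor
    · intro x y hxy
      have h : x.crd = y.crd := congrArg (fun z : ((mv f p hp V).line c).Pt S => z.crd) hxy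
      cases x
      cases y
      simp only at h
      subst h
      rfl
    · intro y
      exact ⟨⟨y.crd, fun e he => y.eq e ((mem_eqs f f1 p hp V c e).1 he)⟩, rfl⟩
  · intro S S' _ _ _ _ φ x x' h i
    exact h i
  · intro S _ _ c' x x' h i
    exact h i
  · intro S _ _ x i
    show ev x.crd (rename some (C (p i) : MvPolynomial V.Idx k)) = ev x.crd (C (p i))
    rw [rename_C]
    rfl

end Pool.Agent.ISO.H13
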